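import Mathlib

namespace Pool.Agent.Results.MP_3821a3_co.Char2Counterexample

open MvPolynomial

/-- Alon-Tarsi number: minimum, over the exponent vectors `α` of monomials of top degree with
nonzero coefficient, of `max_i α_i + 1`. -/
noncomputable def alonTarsi {F : Type} [Field F] {n : ℕ} (p : MvPolynomial (Fin n) F) : ℕ :=
  sInf {k : ℕ | ∃ α : Fin n →₀ ℕ, coeff α p ≠ 0 ∧ (∑ i, α i) = p.totalDegree ∧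
    k = Finset.univ.sup (fun i => α i) + 1}

/-- Edge density of the hypergraph on `Fin n` with edges `e j`: the maximum over nonempty vertex
sets `S` of (number of edges contained in `S`) / `|S|`. -/
noncomputable def edgeDensity {n m : ℕ} (e : Fin m → Finset (Fin n)) : ℝ :=
  sSup {r : ℝ | ∃ S : Finset (Fin n), S.Nonempty ∧
    r = ((Finset.univ.filter (fun j => e j ⊆ S)).card : ℝ) / (S.card : ℝ)}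

/-- The hypergraph polynomial with coefficients `a j i`. -/
noncomputable def hyperPoly {F : Type} [Field F] {n m : ℕ} (e : Fin m → Finset (Fin n))
    (a : Fin m → Fin n → F) : MvPolynomial (Fin n) F :=
  ∏ j, ∑ i ∈ e j, C (a j i) * X i

def ed : Fin 11 → Finset (Fin 4) :=
  ![{0, 1}, {0, 2}, {0, 3}, {1, 2}, {1, 3}, {2, 3}, {0, 1, 2}, {0, 1, 3}, {0, 2, 3}, {1, 2, 3},
    {0, 1, 2, 3}]

theorem moore {R : Type} [CommRing R] (h2 : (2 : R) = 0) (x y z w : R) :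
    (x+y) * (x+z) * (x+w) * (y+z) * (y+w) * (z+w) * (x+y+z) * (x+y+w) * (x+z+w) * (y+z+w) * (x+y+z+w) = y^1*z^3*w^7 + y^1*z^7*w^3 + y^3*z^1*w^7 + y^3*z^7*w^1 + y^7*z^1*w^3 + y^7*z^3*w^1 + x^1*z^3*w^7 + x^1*z^7*w^3 + x^1*y^3*w^7 + x^1*y^3*z^7 + x^1*y^7*w^3 + x^1*y^7*z^3 + x^3*z^1*w^7 + x^3*z^7*w^1 + x^3*y^1*w^7 + x^3*y^1*z^7 + x^3*y^7*w^1 + x^3*y^7*z^1 + x^7*z^1*w^3 + x^7*z^3*w^1 + x^7*y^1*w^3 + x^7*y^1*z^3 + x^7*y^3*w^1 + x^7*y^3*z^1 := by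
  linear_combination ((2)*y^1*z^4*w^6 + (3)*y^1*z^5*w^5 + (2)*y^1*z^6*w^4 + (1)*y^2*z^2*w^7 + (6)*y^2*z^3*w^6 + (13)*y^2*z^4*w^5 + (13)*y^2*z^5*w^4 + (6)*y^2*z^6*w^3 + (1)*y^2*z^7*w^2 + (6)*y^3*z^2*w^6 + (20)*y^3*z^3*w^5 + (29)*y^3*z^4*w^4 + (20)*y^3*z^5*w^3 + (6)*y^3*z^6*w^2 + (2)*y^4*z^1*w^6 + (13)*y^4*z^2*w^5 + (29)*y^4*z^3*w^4 + (29)*y^4*z^4*w^3 + (13)*y^4*z^5*w^2 + (2)*y^4*z^6*w^1 + (3)*y^5*z^1*w^5 + (13)*y^5*z^2*w^4 + (20)*y^5*z^3*w^3 + (13)*y^5*z^4*w^2 + (3)*y^5*z^5*w^1 + (2)*y^6*z^1*w^4 + (6)*y^6*z^2*w^3 + (6)*y^6*z^3*w^2 + (2)*y^6*z^4*w^1 + (1)*y^7*z^2*w^2 + (2)*x^1*z^4*w^6 + (3)*x^1*z^5*w^5 + (2)*x^1*z^6*w^4 + (2)*x^1*y^1*z^2*w^7 + (12)*x^1*y^1*z^3*w^6 + (26)*x^1*y^1*z^4*w^5 + (26)*x^1*y^1*z^5*w^4 + (12)*x^1*y^1*z^6*w^3 + (2)*x^1*y^1*z^7*w^2 + (2)*x^1*y^2*z^1*w^7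 + (20)*x^1*y^2*z^2*w^6 + (64)*x^1*y^2*z^3*w^5 + (92)*x^1*y^2*z^4*w^4 + (64)*x^1*y^2*z^5*w^3 + (20)*x^1*y^2*z^6*w^2 + (2)*x^1*y^2*z^7*w^1 + (12)*x^1*y^3*z^1*w^6 + (64)*x^1*y^3*z^2*w^5 + (136)*x^1*y^3*z^3*w^4 + (136)*x^1*y^3*z^4*w^3 + (64)*x^1*y^3*z^5*w^2 + (12)*x^1*y^3*z^6*w^1 + (2)*x^1*y^4*w^6 + (26)*x^1*y^4*z^1*w^5 + (92)*x^1*y^4*z^2*w^4 + (136)*x^1*y^4*z^3*w^3 + (92)*x^1*y^4*z^4*w^2 + (26)*x^1*y^4*z^5*w^1 + (2)*x^1*y^4*z^6 + (3)*x^1*y^5*w^5 + (26)*x^1*y^5*z^1*w^4 + (64)*x^1*y^5*z^2*w^3 + (64)*x^1*y^5*z^3*w^2 + (26)*x^1*y^5*z^4*w^1 + (3)*x^1*y^5*z^5 + (2)*x^1*y^6*w^4 + (12)*x^1*y^6*z^1*w^3 + (20)*x^1*y^6*z^2*w^2 + (12)*x^1*y^6*z^3*w^1 + (2)*x^1*y^6*z^4 + (2)*x^1*y^7*z^1*w^2 + (2)*x^1*y^7*z^2*w^1 + (1)*x^2*z^2*w^7 + (6)*x^2*z^3*w^6 + (13)*x^2*z^4*w^5 + (13)*x^2*z^5*w^4 + (6)*x^2*z^6*w^3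 + (1)*x^2*z^7*w^2 + (2)*x^2*y^1*z^1*w^7 + (20)*x^2*y^1*z^2*w^6 + (64)*x^2*y^1*z^3*w^5 + (92)*x^2*y^1*z^4*w^4 + (64)*x^2*y^1*z^5*w^3 + (20)*x^2*y^1*z^6*w^2 + (2)*x^2*y^1*z^7*w^1 + (1)*x^2*y^2*w^7 + (20)*x^2*y^2*z^1*w^6 + (102)*x^2*y^2*z^2*w^5 + (214)*x^2*y^2*z^3*w^4 + (214)*x^2*y^2*z^4*w^3 + (102)*x^2*y^2*z^5*w^2 + (20)*x^2*y^2*z^6*w^1 + (1)*x^2*y^2*z^7 + (6)*x^2*y^3*w^6 + (64)*x^2*y^3*z^1*w^5 + (214)*x^2*y^3*z^2*w^4 + (312)*x^2*y^3*z^3*w^3 + (214)*x^2*y^3*z^4*w^2 + (64)*x^2*y^3*z^5*w^1 + (6)*x^2*y^3*z^6 + (13)*x^2*y^4*w^5 + (92)*x^2*y^4*z^1*w^4 + (214)*x^2*y^4*z^2*w^3 + (214)*x^2*y^4*z^3*w^2 + (92)*x^2*y^4*z^4*w^1 + (13)*x^2*y^4*z^5 + (13)*x^2*y^5*w^4 + (64)*x^2*y^5*z^1*w^3 + (102)*x^2*y^5*z^2*w^2 + (64)*x^2*y^5*z^3*w^1 + (13)*x^2*y^5*z^4 + (6)*x^2*y^6*w^3 + (20)*x^2*y^6*z^1*w^2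 + (20)*x^2*y^6*z^2*w^1 + (6)*x^2*y^6*z^3 + (1)*x^2*y^7*w^2 + (2)*x^2*y^7*z^1*w^1 + (1)*x^2*y^7*z^2 + (6)*x^3*z^2*w^6 + (20)*x^3*z^3*w^5 + (29)*x^3*z^4*w^4 + (20)*x^3*z^5*w^3 + (6)*x^3*z^6*w^2 + (12)*x^3*y^1*z^1*w^6 + (64)*x^3*y^1*z^2*w^5 + (136)*x^3*y^1*z^3*w^4 + (136)*x^3*y^1*z^4*w^3 + (64)*x^3*y^1*z^5*w^2 + (12)*x^3*y^1*z^6*w^1 + (6)*x^3*y^2*w^6 + (64)*x^3*y^2*z^1*w^5 + (214)*x^3*y^2*z^2*w^4 + (312)*x^3*y^2*z^3*w^3 + (214)*x^3*y^2*z^4*w^2 + (64)*x^3*y^2*z^5*w^1 + (6)*x^3*y^2*z^6 + (20)*x^3*y^3*w^5 + (136)*x^3*y^3*z^1*w^4 + (312)*x^3*y^3*z^2*w^3 + (312)*x^3*y^3*z^3*w^2 + (136)*x^3*y^3*z^4*w^1 + (20)*x^3*y^3*z^5 + (29)*x^3*y^4*w^4 + (136)*x^3*y^4*z^1*w^3 + (214)*x^3*y^4*z^2*w^2 + (136)*x^3*y^4*z^3*w^1 + (29)*x^3*y^4*z^4 + (20)*x^3*y^5*w^3 + (64)*x^3*y^5*z^1*w^2 + (64)*x^3*y^5*z^2*w^1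 + (20)*x^3*y^5*z^3 + (6)*x^3*y^6*w^2 + (12)*x^3*y^6*z^1*w^1 + (6)*x^3*y^6*z^2 + (2)*x^4*z^1*w^6 + (13)*x^4*z^2*w^5 + (29)*x^4*z^3*w^4 + (29)*x^4*z^4*w^3 + (13)*x^4*z^5*w^2 + (2)*x^4*z^6*w^1 + (2)*x^4*y^1*w^6 + (26)*x^4*y^1*z^1*w^5 + (92)*x^4*y^1*z^2*w^4 + (136)*x^4*y^1*z^3*w^3 + (92)*x^4*y^1*z^4*w^2 + (26)*x^4*y^1*z^5*w^1 + (2)*x^4*y^1*z^6 + (13)*x^4*y^2*w^5 + (92)*x^4*y^2*z^1*w^4 + (214)*x^4*y^2*z^2*w^3 + (214)*x^4*y^2*z^3*w^2 + (92)*x^4*y^2*z^4*w^1 + (13)*x^4*y^2*z^5 + (29)*x^4*y^3*w^4 + (136)*x^4*y^3*z^1*w^3 + (214)*x^4*y^3*z^2*w^2 + (136)*x^4*y^3*z^3*w^1 + (29)*x^4*y^3*z^4 + (29)*x^4*y^4*w^3 + (92)*x^4*y^4*z^1*w^2 + (92)*x^4*y^4*z^2*w^1 + (29)*x^4*y^4*z^3 + (13)*x^4*y^5*w^2 + (26)*x^4*y^5*z^1*w^1 + (13)*x^4*y^5*z^2 + (2)*x^4*y^6*w^1 + (2)*x^4*y^6*z^1 + (3)*x^5*z^1*w^5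 + (13)*x^5*z^2*w^4 + (20)*x^5*z^3*w^3 + (13)*x^5*z^4*w^2 + (3)*x^5*z^5*w^1 + (3)*x^5*y^1*w^5 + (26)*x^5*y^1*z^1*w^4 + (64)*x^5*y^1*z^2*w^3 + (64)*x^5*y^1*z^3*w^2 + (26)*x^5*y^1*z^4*w^1 + (3)*x^5*y^1*z^5 + (13)*x^5*y^2*w^4 + (64)*x^5*y^2*z^1*w^3 + (102)*x^5*y^2*z^2*w^2 + (64)*x^5*y^2*z^3*w^1 + (13)*x^5*y^2*z^4 + (20)*x^5*y^3*w^3 + (64)*x^5*y^3*z^1*w^2 + (64)*x^5*y^3*z^2*w^1 + (20)*x^5*y^3*z^3 + (13)*x^5*y^4*w^2 + (26)*x^5*y^4*z^1*w^1 + (13)*x^5*y^4*z^2 + (3)*x^5*y^5*w^1 + (3)*x^5*y^5*z^1 + (2)*x^6*z^1*w^4 + (6)*x^6*z^2*w^3 + (6)*x^6*z^3*w^2 + (2)*x^6*z^4*w^1 + (2)*x^6*y^1*w^4 + (12)*x^6*y^1*z^1*w^3 + (20)*x^6*y^1*z^2*w^2 + (12)*x^6*y^1*z^3*w^1 + (2)*x^6*y^1*z^4 + (6)*x^6*y^2*w^3 + (20)*x^6*y^2*z^1*w^2 + (20)*x^6*y^2*z^2*w^1 + (6)*x^6*y^2*z^3 + (6)*x^6*y^3*w^2 + (12)*x^6*y^3*z^1*w^1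 + (6)*x^6*y^3*z^2 + (2)*x^6*y^4*w^1 + (2)*x^6*y^4*z^1 + (1)*x^7*z^2*w^2 + (2)*x^7*y^1*z^1*w^2 + (2)*x^7*y^1*z^2*w^1 + (1)*x^7*y^2*w^2 + (2)*x^7*y^2*z^1*w^1 + (1)*x^7*y^2*z^2) * h2

theorem dens : edgeDensity ed ≤ 3 := by
  unfold edgeDensity
  apply Real.sSup_le _ (by norm_num)
  rintro r ⟨S, hS, rfl⟩
  have h : ∀ S : Finset (Fin 4),
      (Finset.univ.filter (fun j => ed j ⊆ S)).card ≤ 3 * S.card := by decide +kernel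
  have hpos : (0 : ℝ) < S.card := by exact_mod_cast hS.card_pos
  rw [div_le_iff₀ hpos]
  exact_mod_cast h S

theorem key {F : Type} [Field F] (c : Fin 4 → F) (α : Fin 4 →₀ ℕ) (i j k : Fin 4) :
    coeff α ((C (c i) * X i : MvPolynomial (Fin 4) F) ^ 1 * (C (c j) * X j) ^ 3 *
      (C (c k) * X k) ^ 7) ≠ 0 → 7 ≤ α k := by
  intro h
  have hd : (X k : MvPolynomial (Fin 4) F) ^ 7 ∣
      (C (c i) * X i : MvPolynomial (Fin 4) F) ^ 1 * (C (c j) * X j) ^ 3 * (C (c k) * X k) ^ 7 := by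
    rw [mul_pow (C (c k))]
    exact Dvd.dvd.mul_left (Dvd.intro_left _ rfl) _
  obtain ⟨q, hq⟩ := hd
  rw [hq, X_pow_eq_monomial, coeff_monomial_mul'] at h
  by_contra hlt
  apply h
  rw [if_neg]
  intro hle
  have := hle k
  simp at this
  exact hlt this

theorem result : ∃ (F : Type) (_ : Field F) (n m : ℕ) (e : Fin m → Finset (Fin n))
    (a : Fin m → Fin n → F),
    Function.Injective e ∧ (∀ j, 2 ≤ (e j).card) ∧ (∀ j, ∀ i ∈ e j, a j i ≠ 0) ∧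
    (∀ j, ∃ i ∈ e j, ∃ i' ∈ e j, a j i ≠ a j i') ∧
    2 * ⌈edgeDensity e⌉ + 2 ≤ (alonTarsi (hyperPoly e a) : ℤ) := by
  let F := AlgebraicClosure (ZMod 2)
  have hinf : ({0}ᶜ : Set F).Infinite := (Set.finite_singleton (0 : F)).infinite_compl
  let f := hinf.natEmbedding
  let c : Fin 4 → F := fun i => (f i.val : F)
  have hc0 : ∀ i, c i ≠ 0 := fun i => (f i.val).2
  have hci : ∀ i j, i ≠ j → c i ≠ c j := by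
    intro i j hij h
    apply hij
    exact Fin.ext (f.injective (Subtype.ext h))
  refine ⟨F, inferInstance, 4, 11, ed, fun _ => c, by decide, by decide, fun _ i _ => hc0 i, ?_, ?_⟩
  · intro j
    have : ∀ j, ∃ i ∈ ed j, ∃ i' ∈ ed j, i ≠ i' := by decide
    obtain ⟨i, hi, i', hi', h⟩ := this j
    exact ⟨i, hi, i', hi', hci _ _ h⟩
  · have h3 : ⌈edgeDensity ed⌉ ≤ 3 := by
      rw [Int.ceil_le]; exact_mod_cast dens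
    have h2 : (2 : MvPolynomial (Fin 4) F) = 0 := by
      have : (2 : F) = 0 := by
        have := CharP.cast_eq_zero F 2
        exact_mod_cast this
      have h' : (2 : MvPolynomial (Fin 4) F) = C (2 : F) := rfl
      rw [h', this, map_zero]
    set p := hyperPoly ed (fun _ => c) with hp
    have hp0 : p ≠ 0 := by
      rw [hp]; unfold hyperPoly
      rw [Finset.prod_ne_zero_iff]
      intro j _ h0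
      have : ∀ j, ∃ i, i ∈ ed j := by decide
      obtain ⟨i, hi⟩ := this j
      have h1 := congrArg (coeff (Finsupp.single i 1)) h0
      rw [coeff_sum, Finset.sum_eq_single i] at h1
      · simp [coeff_X] at h1
        exact hc0 i h1
      · intro b _ hb
        simp [coeff_X, Finsupp.single_eq_single_iff, hb]
      · intro h; exact absurd hi h
    have hexp : ∀ α : Fin 4 →₀ ℕ, coeff α p ≠ 0 → ∃ k, 7 ≤ α k := by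
      intro α hα
      have hm := moore h2 (C (c 0) * X 0) (C (c 1) * X 1) (C (c 2) * X 2) (C (c 3) * X 3)
      have hpe : p = (C (c 1) * X 1) ^ 1 * (C (c 2) * X 2) ^ 3 * (C (c 3) * X 3) ^ 7 + (C (c 1) * X 1) ^ 1 * (C (c 3) * X 3) ^ 3 * (C (c 2) * X 2) ^ 7 + (C (c 2) * X 2) ^ 1 * (C (c 1) * X 1) ^ 3 * (C (c 3) * X 3) ^ 7 + (C (c 3) * X 3) ^ 1 * (C (c 1) * X 1) ^ 3 * (C (c 2) * X 2) ^ 7 + (C (c 2) * X 2) ^ 1 * (C (c 3) * X 3) ^ 3 * (C (c 1) * X 1) ^ 7 + (C (c 3) * X 3) ^ 1 * (C (c 2) * X 2) ^ 3 * (C (c 1) * X 1) ^ 7 + (C (c 0) * X 0) ^ 1 * (C (c 2) * X 2) ^ 3 * (C (c 3) * X 3) ^ 7 + (C (c 0) * X 0) ^ 1 * (C (c 3) * X 3) ^ 3 * (C (c 2) * X 2) ^ 7 + (C (c 0) * X 0) ^ 1 * (C (c 1) * X 1) ^ 3 * (C (c 3) * X 3) ^ 7 + (C (c 0) * X 0) ^ 1 * (C (c 1) * X 1) ^ 3 * (C (c 2) * X 2) ^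 7 + (C (c 0) * X 0) ^ 1 * (C (c 3) * X 3) ^ 3 * (C (c 1) * X 1) ^ 7 + (C (c 0) * X 0) ^ 1 * (C (c 2) * X 2) ^ 3 * (C (c 1) * X 1) ^ 7 + (C (c 2) * X 2) ^ 1 * (C (c 0) * X 0) ^ 3 * (C (c 3) * X 3) ^ 7 + (C (c 3) * X 3) ^ 1 * (C (c 0) * X 0) ^ 3 * (C (c 2) * X 2) ^ 7 + (C (c 1) * X 1) ^ 1 * (C (c 0) * X 0) ^ 3 * (C (c 3) * X 3) ^ 7 + (C (c 1) * X 1) ^ 1 * (C (c 0) * X 0) ^ 3 * (C (c 2) * X 2) ^ 7 + (C (c 3) * X 3) ^ 1 * (C (c 0) * X 0) ^ 3 * (C (c 1) * X 1) ^ 7 + (C (c 2) * X 2) ^ 1 * (C (c 0) * X 0) ^ 3 * (C (c 1) * X 1) ^ 7 + (C (c 2) * X 2) ^ 1 * (C (c 3) * X 3) ^ 3 * (C (c 0) * X 0) ^ 7 + (C (c 3) * X 3) ^ 1 * (C (c 2) * X 2) ^ 3 * (C (c 0) * X 0) ^ 7 + (C (c 1) * X 1) ^ 1 * (C (c 3) * X 3) ^ 3 * (C (c 0) * X 0) ^ 7 + (C (c 1) * X 1) ^ 1 * (C (c 2) * X 2) ^ 3 * (C (c 0)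 * X 0) ^ 7 + (C (c 3) * X 3) ^ 1 * (C (c 1) * X 1) ^ 3 * (C (c 0) * X 0) ^ 7 + (C (c 2) * X 2) ^ 1 * (C (c 1) * X 1) ^ 3 * (C (c 0) * X 0) ^ 7 := by
        rw [hp]; unfold hyperPoly
        simp only [Fin.prod_univ_succ, Fin.prod_univ_zero, ed]
        simp only [Matrix.cons_val_zero, Matrix.cons_val_succ]
        simp only [Finset.sum_insert, Finset.mem_insert, Finset.mem_singleton, Finset.sum_singleton,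
          Fin.reduceEq, or_self, not_false_eq_true]
        linear_combination hm
      by_contra hno
      apply hα
      have hz : ∀ i j k : Fin 4, coeff α ((C (c i) * X i : MvPolynomial (Fin 4) F) ^ 1 *
          (C (c j) * X j) ^ 3 * (C (c k) * X k) ^ 7) = 0 := by
        intro i j k
        by_contra h
        exact hno ⟨k, key c α i j k h⟩
      rw [hpe]
      simp only [coeff_add, hz, add_zero]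
    have h8 : 8 ≤ alonTarsi p := by
      unfold alonTarsi
      apply le_csInf
      · obtain ⟨α, hα, hd⟩ := Finset.exists_mem_eq_sup p.support
          (by rwa [Finset.nonempty_iff_ne_empty, Ne, support_eq_empty])
          (fun s : Fin 4 →₀ ℕ => s.sum fun _ e => e)
        refine ⟨_, α, mem_support_iff.mp hα, ?_, rfl⟩
        rw [totalDegree, hd, Finsupp.sum_fintype _ _ (fun _ => rfl)]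
      · rintro k ⟨α, hα, -, rfl⟩
        obtain ⟨i, hi⟩ := hexp α hα
        have : α i ≤ Finset.univ.sup (fun i => α i) := Finset.le_sup (f := fun i => α i) (Finset.mem_univ i)
        omega
    have : (8 : ℤ) ≤ alonTarsi p := by exact_mod_cast h8
    omega

end Pool.Agent.Results.MP_3821a3_co.Char2Counterexample
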